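import Pool.Agent.Lib.MP_078193_al.NAll
import Pool.Agent.Lib.MP_078193_al.NSmall
import Pool.Agent.Lib.MP_078193_al.NTail

/-!
Classification-free downward inheritance: for all `n` and `2 ≤ k ≤ n/2`, every
`(k-1,k)`-homogeneous subgroup of `S_n` is `(k-2,k-1)`-homogeneous.
-/

namespace Pool.Agent.Results.MP_078193_al.Full

theorem result : ∀ n k : ℕ, 2 ≤ k → 2 * k ≤ n →
    ∀ G : Subgroup (Equiv.Perm (Fin n)),
      (∀ A B : Finset (Fin n), A.card = k - 1 → B.card = k →
        ∃ g ∈ G, A.image (fun x => g x) ⊆ B) →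
      ∀ A B : Finset (Fin n), A.card = k - 2 → B.card = k - 1 →
        ∃ g ∈ G, A.image (fun x => g x) ⊆ B :=
  fun n k h2 hn G hG => Pool.Agent.H5Hom.full_of
    (Pool.Agent.H5Hom.one_of fun t n d τ r ψ g ν h => (Nat.lt_or_ge t 128).elim
      (Pool.Agent.H5Hom.Num.smallA t n d τ r ψ g ν h) (Pool.Agent.H5Hom.tail h))
    n k h2 hn G hG

end Pool.Agent.Results.MP_078193_al.Full
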